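import Pool.Agent.R703.MO.Class

/-!
# `ℓ²`-vanishing for right-angled Coxeter groups, degree by degree
-/

set_option autoImplicit false
set_option linter.unusedSectionVars false

namespace Pool.Agent.K1H57.DW

open Pool.Agent.W907.SG Pool.Agent.W907.SM Pool.Agent.R703.MO
open Pool.Agent.TH652.Join (join ljoin)
open Pool.Agent.TH652.Glue (lglue)
open Pool.Agent.TH652.Above (Q HSph lv_img lv_set lv_sub lv_univ lv_add lv_cone Q_emb Q_join Q_del Q_loc Q_vert Q_glue
  singer_of_above)
open Pool.Agent.R781.VS (AR con NoSq l2split l2vdel)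

/-- The class `VQ D`, for a set `D` of degrees: the smallest class of finite graphs with the following rules. -/
inductive VQ : (ℕ → Prop) → ∀ {V : Type}, SimpleGraph V → Prop
  /-- the members of the class `MQ b`, for the degrees `≥ b` -/
  | mq {b : ℕ} {V : Type} (G : SimpleGraph V) : MQ b G → VQ (fun i => b ≤ i) G
  /-- fewer degrees -/
  | mono {D E : ℕ → Prop} {V : Type} (G : SimpleGraph V) : (∀ i, E i → D i) → VQ D G → VQ E G
  /-- the degrees may be treated one by one, by different rules -/
  | deg {D : ℕ → Prop} {V : Type} [Finite V] (G : SimpleGraph V) : (∀ i, D i → VQ (fun j => j = i) G) → VQ D G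
  /-- the Morse rule with flat directions in the degree `i` -/
  | slope (i : ℕ) {V : Type} [Fintype V] [LinearOrder V] (G : SimpleGraph V) {X : Type} [Finite X] [Nonempty X]
      (D : Slope G X) : (∀ (x : X) (S : Finset V), G.IsClique (S : Set V) → (∀ s ∈ S, D.dir s x = 0) →
      ∀ j, i = j + S.card → HomZero G (D.Asc S x) j) → VQ (fun j => j = i) G
  /-- the relative Morse rule in the degree `i`: `D` is a direction system relative to the set `B` of horizontal
  vertices. The family `R` of pairs `(k, A)` contains the pairs `(i, D.U x)`, and for each of its members with `A ⊆ B`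
  the full subgraph on `A` is in the class of the degree `k`. The other members are cones with an apex outside `B`, or
  do not meet `B` and have no real homology in the degree `k - 1`, or for some `v ∈ A` outside `B` the family contains
  `(k, A \ v)` and, if `k > 0`, `(k - 1, (A \ v) ∩ link v)`. -/
  | morse (i : ℕ) {V : Type} [Fintype V] [LinearOrder V] (G : SimpleGraph V) (B : Set V) {X : Type} [Finite X]
      [Nonempty X] (D : Dir G B X) (R : ℕ → Set V → Prop) : (∀ x, R i (D.U x)) →
      (∀ k A, R k A → (∃ v ∈ A, v ∉ B) → Cone G B A ∨ ((∀ v ∈ A, v ∉ B) ∧ HomZero G A k) ∨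
        ∃ v ∈ A, v ∉ B ∧ R k (A \ {v}) ∧ ∀ j, k = j + 1 → R j ((A \ {v}) ∩ G.neighborSet v)) →
      (∀ k A, R k A → A ⊆ B → VQ (fun j => j = k) (G.induce A)) → VQ (fun j => j = i) G
  /-- Poincaré duality for homology spheres of dimension `n - 1` -/
  | dual {n : ℕ} {V : Type} [Fintype V] [LinearOrder V] (G : SimpleGraph V) :
      HSph n G → VQ (fun i => n < 2 * i) G → VQ (fun i => 2 * i ≠ n) G
  /-- all the degrees but one, and vanishing Euler characteristic `∑_T (-1/2)^|T|` -/
  | eul {m : ℕ} {V : Type} [Fintype V] [LinearOrder V] (G : SimpleGraph V) :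
      VQ (fun i => i ≠ m) G → chiW G = 0 → VQ (fun _ => True) G
  /-- adding a vertex -/
  | vert {D : ℕ → Prop} {V : Type} [Finite V] (G : SimpleGraph V) (v : V) : VQ D (G.induce {v}ᶜ) →
      VQ (fun j => D (j + 1)) (G.induce (G.neighborSet v)) → VQ D G
  /-- deleting a vertex -/
  | vdel {D : ℕ → Prop} {V : Type} [Finite V] (G : SimpleGraph V) (v : V) : VQ D G →
      VQ D (G.induce (G.neighborSet v)) → VQ D (G.induce {v}ᶜ)
  /-- deleting an edge -/
  | del {D : ℕ → Prop} {V : Type} [Finite V] (G : SimpleGraph V) (s t : V) : G.Adj s t → VQ D G →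
      VQ (fun j => D (j + 1)) (G.induce (G.neighborSet s ∩ G.neighborSet t)) → VQ D (G.deleteEdges {s(s, t)})
  /-- vertex splitting -/
  | split {D : ℕ → Prop} {V : Type} [Finite V] (G : SimpleGraph V) (s t : V) : G.Adj s t → NoSq G s t →
      VQ D ((con G s t).induce {t}ᶜ) →
      VQ (fun j => D (j + 1)) (G.induce (G.neighborSet s ∩ G.neighborSet t)) → VQ D G
  /-- gluing along a full subcomplex -/
  | glue {D : ℕ → Prop} {V : Type} [Finite V] (G : SimpleGraph V) (A B : Set V) : A ∪ B = Set.univ →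
      (∀ a ∈ A, a ∉ B → ∀ b ∈ B, b ∉ A → ¬ G.Adj a b) → VQ D (G.induce A) → VQ D (G.induce B) →
      VQ (fun j => D (j + 1)) (G.induce (A ∩ B)) → VQ D G
  /-- joins -/
  | join {D E : ℕ → Prop} {V U : Type} (G : SimpleGraph V) (H : SimpleGraph U) : VQ D G → VQ E H →
      VQ (fun i => ∀ p q, p + q = i → D p ∨ E q) (join G H)
  /-- isomorphic graphs -/
  | iso {D : ℕ → Prop} {V U : Type} (G : SimpleGraph V) (H : SimpleGraph U) : Nonempty (G ≃g H) → VQ D G → VQ D H

/-- the motive -/
def VD (D : ℕ → Prop) {V : Type} (G : SimpleGraph V) : Prop := Finite V ∧ ∀ i, D i → LV G i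

theorem VD_of_VQ {D : ℕ → Prop} {V : Type} {G : SimpleGraph V} (h : VQ D G) : VD D G := by
  classical
  induction h with
  | mq G h => exact VB_of_MQ h
  | mono G hE _ ih => exact ⟨ih.1, fun i hi => ih.2 i (hE i hi)⟩
  | deg G _ ih => exact ⟨inferInstance, fun i hi => (ih i hi).2 i rfl⟩
  | @slope i V _ _ G X _ _ D h =>
    refine ⟨inferInstance, fun j hj => ?_⟩
    subst hj
    exact lv_of (morse_slope G D j fun x S hS h0 k hk => h x S hS h0 k hk)
  | @morse i V _ _ G B X _ _ D R h1 h2 _ ih =>
    refine ⟨inferInstance, fun j hj => ?_⟩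
    subst hj
    refine lv_of (morse_family G B D j R h1 h2 ?_)
    intro k A hR hA _
    exact (ih k A hR hA).2 k rfl _ _
  | @dual n V _ _ G hS _ ih =>
    exact ⟨inferInstance, fun i hi => lv_of (singer_of_above hS (fun i hi => ih.2 i hi _ _) i hi)⟩
  | @eul m V _ _ G _ hχ ih =>
    refine ⟨ih.1, fun i _ => ?_⟩
    have h1 : ∀ i, i ≠ m → L2Van G i := fun i hi => ih.2 i hi _ _
    exact lv_of ((l2eul V G m h1).2 hχ i)
  | vert G v _ _ ih1 ih2 =>
    exact ⟨inferInstance, fun i hi => lstep1 _ G v i (ih1.2 i hi) fun j hj => ih2.2 j (by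
      first | (subst hj; exact hi) | (rw [hj] at hi; exact hi) | (rw [← hj] at hi; exact hi))⟩
  | @vdel D V _ G v _ _ ih1 ih2 =>
    refine ⟨inferInstance, fun i hi _ _ => ?_⟩
    have : Fintype V := Fintype.ofFinite V
    have e1 : LinearOrder V := IsWellOrder.linearOrder WellOrderingRel
    have h5 := l2vdel V G v i (ih1.2 i hi _ _) (ih2.2 i hi _ _)
    exact ord _ _ _ _ _ _ _ _ i ⟨SimpleGraph.Iso.refl⟩ h5
  | del G s t hst _ _ ih1 ih2 =>
    exact ⟨inferInstance, fun i hi => lstep2 _ G s t i hst (ih1.2 i hi) fun j hj => ih2.2 j (by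
      first | (subst hj; exact hi) | (rw [hj] at hi; exact hi) | (rw [← hj] at hi; exact hi))⟩
  | split G s t hst hsq _ _ ih1 ih2 =>
    refine ⟨inferInstance, fun i hi _ _ => ?_⟩
    exact l2split _ G s t i hst hsq (ih1.2 i hi _ _) fun j hj => ih2.2 j (by
      first | (subst hj; exact hi) | (rw [hj] at hi; exact hi) | (rw [← hj] at hi; exact hi)) _ _
  | glue G A B hAB hno _ _ _ ih1 ih2 ih3 =>
    exact ⟨inferInstance, fun i hi => lglue G A B hAB hno i (ih1.2 i hi) (ih2.2 i hi) fun j hj =>
      ih3.2 j (by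
        first | (subst hj; exact hi) | (rw [hj] at hi; exact hi) | (rw [← hj] at hi; exact hi))⟩
  | @join D E V U G H _ _ ih1 ih2 =>
    have := ih1.1
    have := ih2.1
    refine ⟨inferInstance, fun i hi => ljoin G H i fun p q hpq => ?_⟩
    have hpq' : p + q = i := by omega
    rcases hi p q hpq' with h | h
    · exact Or.inl (ih1.2 p h)
    · exact Or.inr (ih2.2 q h)
  | @iso D V U G H e _ ih =>
    have hV : Finite V := ih.1
    exact ⟨Finite.of_equiv V e.some.toEquiv, fun i hi => liso _ _ _ _ i e (ih.2 i hi)⟩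

/-- vanishing in the degrees of `D` for the class `VQ D` -/
theorem van_VQ {D : ℕ → Prop} {V : Type} [Fintype V] [LinearOrder V] {G : SimpleGraph V} (h : VQ D G) (i : ℕ)
    (hi : D i) : L2Van G i := (VD_of_VQ h).2 i hi _ _

end Pool.Agent.K1H57.DW
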